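import Pool.Agent.Helper86.NB.St

/-!
# Project NB, module RMI (helper52): concavity of the conditional entropy
-/

set_option autoImplicit false

namespace Pool.Agent.Helper52.NB

open Filter Topology Pool.Agent.Helper86.NB Pool.Agent.Helper86.ML Pool.Agent.Helper67.Cour

section
variable {G : Type} [Group G] (N : Subgroup G)

/-- the terms of the conditional entropy -/
private noncomputable def T (p : G → ℝ) (x : G) : ℝ :=
  p x * (Real.log (quot N p (x : G ⧸ N)) - Real.log (p x))

private theorem T_nonneg {p : G → ℝ} (hp : Prob p) (x : G) : 0 ≤ T N p x := by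
  unfold T
  rcases (hp.nonneg x).eq_or_lt with h | h
  · rw [← h, zero_mul]
  · apply mul_nonneg h.le
    rw [sub_nonneg]
    exact Real.log_le_log h (le_quot N hp.nonneg hp.summable x)

private theorem T_sum [N.Normal] (h1 : StQPW) {p : G → ℝ} (hp : Prob p) (hF : FE p) :
    Summable (T N p) ∧ ∑' x, T N p x = Ent p - Ent (quot N p) := by
  have hq : Prob (quot N p) := (h1 G N).1 p hp
  set u : G → ℝ := fun x => p x * (-Real.log (quot N p (x : G ⧸ N))) with hu
  have hT : ∀ x, T N p x = Real.negMulLog (p x) - u x := by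
    intro x
    simp only [T, hu, Real.negMulLog]
    ring
  have hu0 : ∀ x, 0 ≤ u x := by
    intro x
    apply mul_nonneg (hp.nonneg x)
    rw [neg_nonneg]
    exact Real.log_nonpos (hq.nonneg _) (hq.le_one _)
  have hu1 : ∀ x, u x ≤ Real.negMulLog (p x) := by
    intro x
    have h := T_nonneg N hp x
    rw [hT] at h
    linarith
  have hus : Summable u := Summable.of_nonneg_of_le hu0 hu1 hF
  have hut : ∑' x, u x = Ent (quot N p) := by
    rw [tsum_fib N hus]
    unfold Ent
    apply tsum_congr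
    intro q
    have h3 : ∀ x : Fib N q, u x = p x * (-Real.log (quot N p q)) := by
      intro x
      simp only [hu]
      rw [x.2]
    rw [tsum_congr h3, tsum_mul_right]
    show quot N p q * (-Real.log (quot N p q)) = Real.negMulLog (quot N p q)
    rw [Real.negMulLog]
    ring
  have h4 : Summable (T N p) := by
    have : T N p = fun x => Real.negMulLog (p x) - u x := funext hT
    rw [this]
    exact Summable.sub hF hus
  refine ⟨h4, ?_⟩
  rw [tsum_congr hT, Summable.tsum_sub hF hus, hut]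
  rfl

end

private theorem rmi_key {G ι : Type} [Group G] (N : Subgroup G) [N.Normal] (h1 : StQPW)
    (w : ι → ℝ) (R : ι → G → ℝ) (hw : Prob w)
    (hR : ∀ i, Prob (R i)) (hF : ∀ i, FE (R i)) (hFZ : FE (fun x => ∑' i, w i * R i x)) :
    (Summable fun i => w i * (Ent (R i) - Ent (quot N (R i)))) ∧
      ∑' i, w i * (Ent (R i) - Ent (quot N (R i))) ≤
        Ent (fun x => ∑' i, w i * R i x) - Ent (quot N fun x => ∑' i, w i * R i x) := by
  set Z : G → ℝ := fun x => ∑' i, w i * R i x with hZdef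
  -- joint summability
  have hS0 : Summable fun z : ι × G => w z.1 * R z.1 z.2 := by
    rw [summable_prod_of_nonneg (fun z => mul_nonneg (hw.nonneg _) ((hR _).nonneg _))]
    refine ⟨fun i => (hR i).summable.mul_left (w i), ?_⟩
    have h2 : ∀ i, ∑' x, w i * R i x = w i := by
      intro i
      rw [tsum_mul_left, (hR i).tsum_eq, mul_one]
    simp only [h2]
    exact hw.summable
  have hS : Summable fun z : G × ι => w z.2 * R z.2 z.1 :=
    (Equiv.prodComm G ι).summable_iff.2 hS0
  have hSx : ∀ x, Summable fun i => w i * R i x := fun x => hS.prod_factor x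
  have hZs : Summable Z := hS.prod
  have hS0t : ∑' z : ι × G, w z.1 * R z.1 z.2 = 1 := by
    rw [hS0.tsum_prod]
    have h2 : ∀ i, ∑' x, w i * R i x = w i := by
      intro i
      rw [tsum_mul_left, (hR i).tsum_eq, mul_one]
    rw [tsum_congr h2, hw.tsum_eq]
  have hSt : ∑' z : G × ι, w z.2 * R z.2 z.1 = 1 := by
    rw [← hS0t]
    exact (Equiv.prodComm G ι).tsum_eq (fun z : ι × G => w z.1 * R z.1 z.2)
  have hZt : ∑' x, Z x = 1 := by
    rw [← hSt, hS.tsum_prod]
  have hZ : Prob Z := by
    refine ⟨fun x => tsum_nonneg fun i => mul_nonneg (hw.nonneg _) ((hR _).nonneg _), ?_⟩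
    have := hZs.hasSum
    rwa [hZt] at this
  have hZq : Prob (quot N Z) := (h1 G N).1 Z hZ
  have hRq : ∀ i, Prob (quot N (R i)) := fun i => (h1 G N).1 (R i) (hR i)
  -- the quotient of the mixture
  have hqs : ∀ q, Summable fun i => w i * quot N (R i) q := by
    intro q
    refine Summable.of_nonneg_of_le (fun i => mul_nonneg (hw.nonneg _) ((hRq i).nonneg _))
      (fun i => ?_) hw.summable
    exact mul_le_of_le_one_right (hw.nonneg i) ((hRq i).le_one q)
  have hqt : ∀ q, quot N Z q = ∑' i, w i * quot N (R i) q := by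
    intro q
    have h3 : Summable (Function.uncurry fun (x : Fib N q) (i : ι) => w i * R i x) := by
      have hinj : Function.Injective fun z : Fib N q × ι => ((z.1.1, z.2) : G × ι) := by
        rintro ⟨⟨x, hx⟩, i⟩ ⟨⟨y, hy⟩, j⟩ h
        simp only [Prod.mk.injEq] at h
        obtain ⟨rfl, rfl⟩ := h
        rfl
      exact hS.comp_injective hinj
    have h4 : quot N Z q = ∑' x : Fib N q, ∑' i, w i * R i x := rfl
    have h5 : ∀ i, w i * quot N (R i) q = ∑' x : Fib N q, w i * R i x := by
      intro i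
      rw [tsum_mul_left]
      rfl
    rw [h4, tsum_congr h5]
    exact h3.tsum_comm.symm
  -- elementary facts
  have hle : ∀ x, Z x ≤ quot N Z (x : G ⧸ N) := fun x => le_quot N hZ.nonneg hZs x
  have hle1 : ∀ i x, w i * R i x ≤ Z x := by
    intro i x
    exact (hSx x).le_tsum i fun j _ => mul_nonneg (hw.nonneg _) ((hR _).nonneg _)
  set D : G → ℝ := fun x => Real.log (quot N Z (x : G ⧸ N)) - Real.log (Z x) with hD
  -- the three parts
  have hb1n : ∀ z : G × ι, 0 ≤ w z.2 * R z.2 z.1 * D z.1 := by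
    rintro ⟨x, i⟩
    simp only
    rcases (hZ.nonneg x).eq_or_lt with h | h
    · have h3 : w i * R i x = 0 :=
        le_antisymm (by rw [h]; exact hle1 i x) (mul_nonneg (hw.nonneg _) ((hR _).nonneg _))
      rw [h3, zero_mul]
    · apply mul_nonneg (mul_nonneg (hw.nonneg _) ((hR _).nonneg _))
      rw [hD]
      simp only
      rw [sub_nonneg]
      exact Real.log_le_log h (hle x)
  have hTZ := T_sum N h1 hZ hFZ
  have hb1x : ∀ x, ∑' i, w i * R i x * D x = T N Z x := by
    intro x
    rw [tsum_mul_right]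
    rfl
  have hb1 : Summable fun z : G × ι => w z.2 * R z.2 z.1 * D z.1 := by
    rw [summable_prod_of_nonneg hb1n]
    refine ⟨fun x => (hSx x).mul_right (D x), ?_⟩
    simp only [hb1x]
    exact hTZ.1
  have hb1t : ∑' z : G × ι, w z.2 * R z.2 z.1 * D z.1 = Ent Z - Ent (quot N Z) := by
    rw [hb1.tsum_prod, ← hTZ.2]
    exact tsum_congr hb1x
  have hb2n : ∀ z : G × ι, 0 ≤ w z.2 * quot N (R z.2) (z.1 : G ⧸ N) *
      (Z z.1 / quot N Z (z.1 : G ⧸ N)) := by
    rintro ⟨x, i⟩
    exact mul_nonneg (mul_nonneg (hw.nonneg _) ((hRq i).nonneg _))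
      (div_nonneg (hZ.nonneg _) (hZq.nonneg _))
  have hb2x : ∀ x : G, ∑' i, w i * quot N (R i) (x : G ⧸ N) * (Z x / quot N Z (x : G ⧸ N)) = Z x := by
    intro x
    rw [tsum_mul_right, ← hqt]
    rcases (hZq.nonneg (x : G ⧸ N)).eq_or_lt with h | h
    · have h3 : Z x = 0 := le_antisymm (by rw [h]; exact hle x) (hZ.nonneg x)
      rw [h3]
      simp
    · rw [mul_div_cancel₀ _ h.ne']
  have hb2 : Summable fun z : G × ι => w z.2 * quot N (R z.2) (z.1 : G ⧸ N) *
      (Z z.1 / quot N Z (z.1 : G ⧸ N)) := by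
    rw [summable_prod_of_nonneg hb2n]
    refine ⟨fun x => (hqs (x : G ⧸ N)).mul_right (Z x / quot N Z (x : G ⧸ N)), ?_⟩
    simp only [hb2x]
    exact hZs
  have hb2t : ∑' z : G × ι, w z.2 * quot N (R z.2) (z.1 : G ⧸ N) *
      (Z z.1 / quot N Z (z.1 : G ⧸ N)) = 1 := by
    rw [hb2.tsum_prod, ← hZt]
    exact tsum_congr hb2x
  -- the comparison
  have hab : ∀ z : G × ι, w z.2 * T N (R z.2) z.1 ≤ w z.2 * R z.2 z.1 * D z.1 +
      w z.2 * quot N (R z.2) (z.1 : G ⧸ N) * (Z z.1 / quot N Z (z.1 : G ⧸ N)) -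
      w z.2 * R z.2 z.1 := by
    rintro ⟨x, i⟩
    have e1 := hb2n (x, i)
    simp only at e1 ⊢
    rcases (hw.nonneg i).eq_or_lt with hwi | hwi
    · rw [← hwi]
      simp
    rcases ((hR i).nonneg x).eq_or_lt with hr | hr
    · simp only [T, ← hr]
      linarith
    · have hz : 0 < Z x := lt_of_lt_of_le (mul_pos hwi hr) (hle1 i x)
      have hz' : 0 < quot N Z (x : G ⧸ N) := lt_of_lt_of_le hz (hle x)
      have hr' : 0 < quot N (R i) (x : G ⧸ N) :=
        lt_of_lt_of_le hr (le_quot N (hR i).nonneg (hR i).summable x)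
      set r := R i x
      set r' := quot N (R i) (x : G ⧸ N)
      set z' := quot N Z (x : G ⧸ N)
      have ht : 0 < r' * Z x / (r * z') := by positivity
      have hlog := Real.log_le_sub_one_of_pos ht
      rw [Real.log_div (mul_pos hr' hz).ne' (mul_pos hr hz').ne', Real.log_mul hr'.ne' hz.ne',
        Real.log_mul hr.ne' hz'.ne'] at hlog
      have h5 := mul_le_mul_of_nonneg_left hlog (mul_pos hwi hr).le
      have h6 : w i * r * (r' * Z x / (r * z') - 1) = w i * r' * (Z x / z') - w i * r := by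
        field_simp
      rw [h6] at h5
      have h7 : T N (R i) x = r * (Real.log r' - Real.log r) := rfl
      have h8 : D x = Real.log z' - Real.log (Z x) := rfl
      rw [h7, h8]
      linarith
  have hbs := (hb1.add hb2).sub hS
  have ha : Summable fun z : G × ι => w z.2 * T N (R z.2) z.1 :=
    Summable.of_nonneg_of_le (fun z => mul_nonneg (hw.nonneg _) (T_nonneg N (hR _) _)) hab hbs
  have hat : ∑' z : G × ι, w z.2 * T N (R z.2) z.1 ≤ Ent Z - Ent (quot N Z) := by
    have h5 := ha.tsum_le_tsum hab hbs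
    rw [(hb1.add hb2).tsum_sub hS, hb1.tsum_add hb2, hb1t, hb2t, hSt] at h5
    linarith
  have ha' : Summable fun z : ι × G => w z.1 * T N (R z.1) z.2 :=
    (Equiv.prodComm ι G).summable_iff.2 ha
  have hat' : ∑' z : ι × G, w z.1 * T N (R z.1) z.2 = ∑' z : G × ι, w z.2 * T N (R z.2) z.1 :=
    (Equiv.prodComm ι G).tsum_eq (fun z : G × ι => w z.2 * T N (R z.2) z.1)
  have hai : ∀ i, ∑' x, w i * T N (R i) x = w i * (Ent (R i) - Ent (quot N (R i))) := by
    intro i
    rw [tsum_mul_left, (T_sum N h1 (hR i) (hF i)).2]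
  have hp := ha'.prod
  simp only [hai] at hp
  refine ⟨hp, ?_⟩
  rw [← tsum_congr hai, ← ha'.tsum_prod, hat']
  exact hat

theorem hRMI (h1 : StQPW) (_h2 : StQEN) : StRMI := by
  intro G ι _ N _ w R hw hR hF hFZ
  exact rmi_key N h1 w R hw hR hF hFZ

end Pool.Agent.Helper52.NB
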